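import Pool.Agent.Helper2.EL.Defs
import Pool.Agent.Helper2.CF.Defs

/-!
EL-6: the Mumford-Tate group consists of similitudes `z g₀` with `g₀` in the special orthogonal group of the
polarisation. The tensors used are `Q⁻¹ ⊗ Q`, the determinant tensor and its product with `Q ⊗ ... ⊗ Q`.
-/

set_option linter.unusedSectionVars false

open Matrix

namespace MH

variable {n : Type*} [Fintype n] [DecidableEq n]

section tensors5

variable {A₀ : Type*} [CommRing A₀]

/-- product of tensors -/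
private def pt5 {a b : ℕ} (u : (Fin a → n) → A₀) (v : (Fin b → n) → A₀) : (Fin a ⊕ Fin b → n) → A₀ :=
  fun i => u (fun k => i (Sum.inl k)) * v (fun k => i (Sum.inr k))

private lemma act_pt5 {a b : ℕ} (u : (Fin a → n) → A₀) (v : (Fin b → n) → A₀) (g g' : Matrix n n A₀)
    (i : Fin a ⊕ Fin b → n) :
    actF (slot a b g g') (pt5 u v) i =
      actF (fun _ => g) u (fun k => i (Sum.inl k)) * actF (fun _ => g'ᵀ) v (fun k => i (Sum.inr k)) := by
  unfold actF
  rw [Finset.sum_mul_sum, ← Fintype.sum_prod_type']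
  refine Fintype.sum_equiv (Equiv.sumArrowEquivProdArrow (Fin a) (Fin b) n) _ _ fun j => ?_
  rw [Fintype.prod_sum_type]
  simp only [slot, Sum.elim_inl, Sum.elim_inr, pt5, Equiv.sumArrowEquivProdArrow, Equiv.coe_fn_mk,
    Function.comp_def]
  ring

private lemma eig_pt5 {a b : ℕ} {u : (Fin a → n) → A₀} {v : (Fin b → n) → A₀} {g g' : Matrix n n A₀} {c d : A₀}
    (hu : actF (fun _ => g) u = c • u) (hv : actF (fun _ => g'ᵀ) v = d • v) :
    actF (slot a b g g') (pt5 u v) = (c * d) • pt5 u v := by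
  funext i
  rw [act_pt5, hu, hv]
  simp only [Pi.smul_apply, smul_eq_mul, pt5]
  ring

/-- the tensor `M ⊗ ... ⊗ M` -/
private def qt5 (h : ℕ) (M : Matrix n n A₀) : (Fin (h * 2) → n) → A₀ :=
  fun j => ∏ l : Fin h, M (j (finProdFinEquiv (l, 0))) (j (finProdFinEquiv (l, 1)))

private lemma act_qt5 (h : ℕ) (B M : Matrix n n A₀) :
    actF (fun _ => B) (qt5 h M) = qt5 h (B * M * Bᵀ) := by
  funext i
  unfold actF qt5
  have h1 : ∀ l : Fin h, (B * M * Bᵀ) (i (finProdFinEquiv (l, 0))) (i (finProdFinEquiv (l, 1))) =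
      ∑ w : Fin 2 → n, B (i (finProdFinEquiv (l, 0))) (w 0) * B (i (finProdFinEquiv (l, 1))) (w 1) *
        M (w 0) (w 1) := by
    intro l
    rw [← Equiv.sum_comp (finTwoArrowEquiv n).symm, Fintype.sum_prod_type]
    simp only [Matrix.mul_apply, Finset.sum_mul, Matrix.transpose_apply, finTwoArrowEquiv_symm_apply,
      Matrix.cons_val_zero, Matrix.cons_val_one]
    rw [Finset.sum_comm]
    refine Finset.sum_congr rfl fun x _ => Finset.sum_congr rfl fun y _ => ?_
    ring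
  simp_rw [h1]
  rw [Finset.prod_univ_sum, Fintype.piFinset_univ]
  refine Fintype.sum_equiv ((Equiv.arrowCongr (finProdFinEquiv (m := h) (n := 2)).symm (Equiv.refl n)).trans
    (Equiv.curry (Fin h) (Fin 2) n)) _ _ fun j => ?_
  rw [← Equiv.prod_comp (finProdFinEquiv (m := h) (n := 2)), Fintype.prod_prod_type, ← Finset.prod_mul_distrib]
  refine Finset.prod_congr rfl fun l _ => ?_
  rw [Fin.prod_univ_two]
  rfl

private lemma qt_smul5 (h : ℕ) (c : A₀) (M : Matrix n n A₀) : qt5 h (c • M) = c ^ h • qt5 h M := by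
  funext j
  simp only [qt5, Matrix.smul_apply, smul_eq_mul, Finset.prod_mul_distrib, Finset.prod_const,
    Finset.card_univ, Fintype.card_fin, Pi.smul_apply]

private lemma qt_one5 (M : Matrix n n A₀) (x y : n) :
    qt5 1 M (fun k => if (finProdFinEquiv.symm k).2 = 0 then x else y) = M x y := by
  unfold qt5
  rw [Fin.prod_univ_one]
  simp

private lemma qt_ne5 [IsDomain A₀] {M : Matrix n n A₀} {x y : n} (hxy : M x y ≠ 0) (h : ℕ) :
    qt5 h M (fun k => if (finProdFinEquiv.symm k).2 = 0 then x else y) ≠ 0 := by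
  unfold qt5
  rw [Finset.prod_ne_zero_iff]
  intro l _
  simpa using hxy

/-- the determinant tensor -/
private def ep5 (e : Fin (Fintype.card n) ≃ n) : (Fin (Fintype.card n) → n) → A₀ :=
  fun i => (Matrix.of fun k l => if i k = e l then (1 : A₀) else 0).det

private lemma det_row5 {d : ℕ} (N : Matrix (Fin d) (Fin d) A₀) :
    N.det = ∑ σ : Equiv.Perm (Fin d), ((Equiv.Perm.sign σ : ℤ) : A₀) * ∏ k, N k (σ k) := by
  rw [← Matrix.det_transpose, Matrix.det_apply']
  rfl

private lemma act_ep5 (e : Fin (Fintype.card n) ≃ n) (g : Matrix n n A₀) :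
    actF (fun _ => g) (ep5 e) = g.det • ep5 e := by
  funext i
  have h1 : (g.det • ep5 e) i = (Matrix.of fun k l => g (i k) (e l)).det := by
    have h2 : (Matrix.of fun k l => g (i k) (e l)) =
        (Matrix.of fun k l => if i k = e l then (1 : A₀) else 0) * g.submatrix e e := by
      ext k l
      rw [Matrix.mul_apply]
      simp only [Matrix.of_apply, Matrix.submatrix_apply, ite_mul, one_mul, zero_mul]
      rw [Finset.sum_eq_single (e.symm (i k))]
      · simp
      · intro x _ hx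
        rw [if_neg]
        intro h
        apply hx
        rw [h, Equiv.symm_apply_apply]
      · intro h
        exact absurd (Finset.mem_univ _) h
    rw [h2, Matrix.det_mul, Matrix.det_submatrix_equiv_self]
    simp only [Pi.smul_apply, smul_eq_mul, ep5]
    ring
  rw [h1, det_row5]
  unfold actF ep5
  simp_rw [det_row5, Finset.mul_sum]
  rw [Finset.sum_comm]
  refine Finset.sum_congr rfl fun σ _ => ?_
  have h3 : ∏ k, (Matrix.of fun k l => g (i k) (e l)) k (σ k) =
      ∑ j : Fin (Fintype.card n) → n, ∏ k, (g (i k) (j k) * (if j k = e (σ k) then (1 : A₀) else 0)) := by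
    have h4 : ∀ k, (Matrix.of fun k l => g (i k) (e l)) k (σ k) =
        ∑ y : n, g (i k) y * (if y = e (σ k) then (1 : A₀) else 0) := by
      intro k
      rw [Matrix.of_apply, Finset.sum_eq_single (e (σ k))]
      · rw [if_pos rfl, mul_one]
      · intro y _ hy
        rw [if_neg hy, mul_zero]
      · intro h
        exact absurd (Finset.mem_univ _) h
    simp_rw [h4]
    rw [Finset.prod_univ_sum, Fintype.piFinset_univ]
  rw [h3, Finset.mul_sum]
  refine Finset.sum_congr rfl fun j _ => ?_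
  rw [Finset.prod_mul_distrib]
  simp only [Matrix.of_apply]
  ring

private lemma ep_self5 (e : Fin (Fintype.card n) ≃ n) : (ep5 e (fun k => e k) : A₀) = 1 := by
  unfold ep5
  have h1 : (Matrix.of fun k l => if e k = e l then (1 : A₀) else 0) =
      (1 : Matrix (Fin (Fintype.card n)) (Fin (Fintype.card n)) A₀) := by
    ext k l
    rw [Matrix.of_apply, Matrix.one_apply]
    simp only [EmbeddingLike.apply_eq_iff_eq]
  rw [h1, Matrix.det_one]

end tensors5

private lemma tC_pt5 {a b : ℕ} (u : (Fin a → n) → ℚ) (v : (Fin b → n) → ℚ) :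
    tC (pt5 u v) = pt5 (tC u) (tC v) := by
  funext i
  simp only [tC, pt5, map_mul]

private lemma tC_qt5 (h : ℕ) (M : Matrix n n ℚ) : tC (qt5 h M) = qt5 h (toC M) := by
  funext i
  simp only [tC, qt5, map_prod]
  rfl

private lemma tC_ep5 (e : Fin (Fintype.card n) ≃ n) : tC (ep5 e) = (ep5 e : _ → ℂ) := by
  funext i
  unfold tC ep5
  rw [RingHom.map_det]
  congr 1
  ext k l
  simp only [RingHom.mapMatrix_apply, Matrix.map_apply, Matrix.of_apply]
  split_ifs <;> simp

variable {m : ℤ} {Q : Matrix n n ℚ} {S : Finset ℤ} {P R : ℤ → Matrix n n ℂ} {Γ : Subgroup (GL n ℂ)}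

private lemma cochar_sim5 (H : IsHS m Q S P) {z : ℂ} (hz : z ≠ 0) :
    (cochar S P z)ᵀ * toC Q * cochar S P z = z ^ (2 * m) • toC Q := by
  unfold cochar
  rw [H.sum_transpose_mul_Q (fun p => z ^ p), mul_assoc, H.sum_mul_sum (fun p => z ^ (2 * m - p)) (fun p => z ^ p)]
  have h1 : ∀ p : ℤ, z ^ (2 * m - p) * z ^ p = z ^ (2 * m) := by
    intro p
    rw [← zpow_add₀ hz]
    congr 1
    ring
  simp_rw [h1]
  rw [← Finset.smul_sum, H.sum, mul_smul_comm, mul_one]

private lemma detQ5 (H : IsHS m Q S P) : (toC Q).det ≠ 0 := by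
  obtain ⟨B, Bi, Qi, _, _, h3, _, _⟩ := H.exists_basis
  intro h0
  have := congrArg Matrix.det h3
  rw [Matrix.det_mul, h0, zero_mul, Matrix.det_one] at this
  exact zero_ne_one this

private lemma det_cochar5 (H : IsHS m Q S P) {z : ℂ} (hz : z ≠ 0) :
    (cochar S P z).det = z ^ (m * (Fintype.card n : ℤ)) := by
  obtain ⟨w, hw⟩ := IsAlgClosed.exists_pow_nat_eq z (show 0 < 2 by norm_num)
  have hw0 : w ≠ 0 := by
    rintro rfl
    rw [zero_pow (by norm_num)] at hw
    exact hz hw.symm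
  have h1 : cochar S P z = cochar S P w * cochar S P w := by
    unfold cochar
    rw [H.sum_mul_sum (fun p => w ^ p) (fun p => w ^ p)]
    refine Finset.sum_congr rfl fun p _ => ?_
    rw [← hw, ← mul_zpow, pow_two]
  have h2 := congrArg Matrix.det (cochar_sim5 H hw0)
  rw [Matrix.det_mul, Matrix.det_mul, Matrix.det_transpose, Matrix.det_smul] at h2
  have h3 : (cochar S P w).det * (cochar S P w).det = (w ^ (2 * m)) ^ Fintype.card n := by
    have h4 : ((cochar S P w).det * (cochar S P w).det - (w ^ (2 * m)) ^ Fintype.card n) * (toC Q).det = 0 := by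
      linear_combination h2
    exact sub_eq_zero.1 ((mul_eq_zero.1 h4).resolve_right (detQ5 H))
  rw [h1, Matrix.det_mul, h3, ← hw]
  rw [← zpow_natCast (w ^ (2 * m)), ← _root_.zpow_mul, ← zpow_natCast w 2, ← _root_.zpow_mul]
  congr 1
  push_cast
  ring

private lemma cochar_sim_inv5 (H : IsHS m Q S P) {z : ℂ} (hz : z ≠ 0) :
    (cochar S P z⁻¹)ᵀ * toC Q * cochar S P z⁻¹ = z ^ (-(2 * m)) • toC Q := by
  rw [cochar_sim5 H (inv_ne_zero hz), _root_.inv_zpow, _root_.zpow_neg]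

/-- group elements: the multiplier of the inverse -/
private lemma inv_sim5 {Q' : Matrix n n ℂ} {g : GL n ℂ} {c : ℂ} (hc : c ≠ 0)
    (h : (g : Matrix n n ℂ)ᵀ * Q' * (g : Matrix n n ℂ) = c • Q') :
    (((g⁻¹ : GL n ℂ) : Matrix n n ℂ))ᵀ * Q' * ((g⁻¹ : GL n ℂ) : Matrix n n ℂ) = c⁻¹ • Q' := by
  have h1 : (g : Matrix n n ℂ) * ((g⁻¹ : GL n ℂ) : Matrix n n ℂ) = 1 := by
    rw [← Units.val_mul, mul_inv_cancel, Units.val_one]
  have h2 : (((g⁻¹ : GL n ℂ) : Matrix n n ℂ))ᵀ * (g : Matrix n n ℂ)ᵀ = 1 := by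
    rw [← Matrix.transpose_mul, h1, Matrix.transpose_one]
  have h3 : (((g⁻¹ : GL n ℂ) : Matrix n n ℂ))ᵀ * ((g : Matrix n n ℂ)ᵀ * Q' * (g : Matrix n n ℂ)) *
      ((g⁻¹ : GL n ℂ) : Matrix n n ℂ) = Q' := by
    calc _ = ((((g⁻¹ : GL n ℂ) : Matrix n n ℂ))ᵀ * (g : Matrix n n ℂ)ᵀ) * Q' *
        ((g : Matrix n n ℂ) * ((g⁻¹ : GL n ℂ) : Matrix n n ℂ)) := by simp only [mul_assoc]
      _ = Q' := by rw [h1, h2, one_mul, mul_one]
  rw [h, mul_smul_comm, smul_mul_assoc] at h3
  calc (((g⁻¹ : GL n ℂ) : Matrix n n ℂ))ᵀ * Q' * ((g⁻¹ : GL n ℂ) : Matrix n n ℂ) =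
      c⁻¹ • (c • ((((g⁻¹ : GL n ℂ) : Matrix n n ℂ))ᵀ * Q' * ((g⁻¹ : GL n ℂ) : Matrix n n ℂ))) := by
        rw [smul_smul, inv_mul_cancel₀ hc, one_smul]
    _ = c⁻¹ • Q' := by rw [h3]

/-- the multiplier -/
private lemma exists_mult5 [Nonempty n] (H : IsHS m Q S P) {g : GL n ℂ} (hg : g ∈ MT S P) :
    ∃ c : ℂ, c ≠ 0 ∧ (m = 0 → c = 1) ∧
      (g : Matrix n n ℂ)ᵀ * toC Q * (g : Matrix n n ℂ) = c • toC Q := by
  classical
  obtain ⟨x0, y0, hxy⟩ : ∃ x y, Q x y ≠ 0 := by
    by_contra hcon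
    push Not at hcon
    have h0 : toC Q = 0 := by
      ext x y
      simp only [toC, Matrix.map_apply, hcon x y, map_zero, Matrix.zero_apply]
    apply detQ5 H
    rw [h0, Matrix.det_zero]
  have hxyC : toC Q x0 y0 ≠ 0 := by
    simp only [toC, Matrix.map_apply, ne_eq, map_eq_zero]
    exact hxy
  have hgg : ((g⁻¹ : GL n ℂ) : Matrix n n ℂ) * (g : Matrix n n ℂ) = 1 := by
    rw [← Units.val_mul, inv_mul_cancel, Units.val_one]
  have hgg' : (g : Matrix n n ℂ) * ((g⁻¹ : GL n ℂ) : Matrix n n ℂ) = 1 := by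
    rw [← Units.val_mul, mul_inv_cancel, Units.val_one]
  have hz2 : ∀ z : ℂ, z ≠ 0 → (cochar S P z⁻¹)ᵀ * toC Q * ((cochar S P z⁻¹)ᵀ)ᵀ = z ^ (-(2 * m)) • toC Q := by
    intro z hz
    rw [Matrix.transpose_transpose, cochar_sim_inv5 H hz]
  by_cases hm : m = 0
  · -- weight zero: the tensor `Q`
    have hT : IsHodgeTensor S P 0 (1 * 2) (pt5 (fun _ => 1) (qt5 1 Q)) := by
      intro z hz
      rw [tC_pt5, tC_qt5]
      rw [eig_pt5 (c := 1) (d := 1)]
      · rw [show (1 : ℂ) * 1 = 1 from one_mul 1, one_smul]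
      · rw [one_smul]
        funext i
        unfold actF tC
        simp
      · rw [act_qt5, hz2 z hz, hm, mul_zero, neg_zero, zpow_zero, one_smul, one_smul]
    have h1 := hg 0 (1 * 2) _ hT
    rw [tC_pt5, tC_qt5] at h1
    have h2 : (((g⁻¹ : GL n ℂ) : Matrix n n ℂ))ᵀ * toC Q * ((g⁻¹ : GL n ℂ) : Matrix n n ℂ) = toC Q := by
      ext x y
      have h3 := congrFun h1 (Sum.elim (fun _ => x) (fun k => if (finProdFinEquiv.symm k).2 = 0 then x else y))
      rw [act_pt5, act_qt5, Matrix.transpose_transpose] at h3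
      simp only [Sum.elim_inl, Sum.elim_inr, pt5] at h3
      rw [qt_one5, qt_one5] at h3
      have h4 : ∀ i : Fin 0 → n, actF (fun _ => (g : Matrix n n ℂ)) (tC fun _ => (1 : ℚ)) i = 1 := by
        intro i
        unfold actF tC
        simp
      have h5 : ∀ i : Fin 0 → n, tC (fun _ : Fin 0 → n => (1 : ℚ)) i = 1 := by
        intro i
        unfold tC
        simp
      rw [h4, h5, one_mul, one_mul] at h3
      exact h3
    refine ⟨1, one_ne_zero, fun _ => rfl, ?_⟩
    have h3 : (g : Matrix n n ℂ)ᵀ * ((((g⁻¹ : GL n ℂ) : Matrix n n ℂ))ᵀ * toC Q *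
        ((g⁻¹ : GL n ℂ) : Matrix n n ℂ)) * (g : Matrix n n ℂ) = toC Q := by
      calc _ = ((g : Matrix n n ℂ)ᵀ * (((g⁻¹ : GL n ℂ) : Matrix n n ℂ))ᵀ) * toC Q *
          (((g⁻¹ : GL n ℂ) : Matrix n n ℂ) * (g : Matrix n n ℂ)) := by simp only [mul_assoc]
        _ = toC Q := by
            rw [← Matrix.transpose_mul, hgg, Matrix.transpose_one, one_mul, mul_one]
    rw [h2] at h3
    rw [h3, one_smul]
  · -- the tensor `Q⁻¹ ⊗ Q`
    have hdQ : Q.det ≠ 0 := by
      intro h0
      apply detQ5 H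
      have h1 : (toC Q).det = algebraMap ℚ ℂ Q.det := by
        rw [RingHom.map_det]
        rfl
      rw [h1, h0, map_zero]
    have hu : IsUnit Q.det := isUnit_iff_ne_zero.2 hdQ
    have hQQ : toC Q * toC Q⁻¹ = 1 := by
      rw [← toC_mul, Matrix.mul_nonsing_inv Q hu]
      unfold toC
      exact Matrix.map_one _ (map_zero _) (map_one _)
    have hQQ' : toC Q⁻¹ * toC Q = 1 := by
      rw [← toC_mul, Matrix.nonsing_inv_mul Q hu]
      unfold toC
      exact Matrix.map_one _ (map_zero _) (map_one _)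
    -- the inverse form
    have key : ∀ (A Ai : Matrix n n ℂ) (c : ℂ), c ≠ 0 → A * Ai = 1 → Ai * A = 1 →
        Aᵀ * toC Q * A = c • toC Q → A * toC Q⁻¹ * Aᵀ = c • toC Q⁻¹ := by
      intro A Ai c hc h1 h2 h3
      have h4 : Aᵀ * (toC Q * A * (c⁻¹ • toC Q⁻¹)) = 1 := by
        calc Aᵀ * (toC Q * A * (c⁻¹ • toC Q⁻¹)) = (Aᵀ * toC Q * A) * (c⁻¹ • toC Q⁻¹) := by
              simp only [mul_assoc]
          _ = 1 := by
              rw [h3, smul_mul_smul_comm, mul_inv_cancel₀ hc, one_smul, hQQ]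
      have h5 : (toC Q * A * (c⁻¹ • toC Q⁻¹)) * Aᵀ = 1 := mul_eq_one_comm.1 h4
      have h6 : c⁻¹ • (toC Q * (A * toC Q⁻¹ * Aᵀ)) = 1 := by
        rw [← h5, mul_smul_comm, smul_mul_assoc]
        simp only [mul_assoc]
      calc A * toC Q⁻¹ * Aᵀ = c • (toC Q⁻¹ * (c⁻¹ • (toC Q * (A * toC Q⁻¹ * Aᵀ)))) := by
            rw [mul_smul_comm, smul_smul, mul_inv_cancel₀ hc, one_smul, ← mul_assoc, hQQ', one_mul]
        _ = c • toC Q⁻¹ := by rw [h6, mul_one]
    have hcc : ∀ z : ℂ, z ≠ 0 → cochar S P z * cochar S P z⁻¹ = 1 := by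
      intro z hz
      unfold cochar
      rw [H.sum_mul_sum (fun p => z ^ p) (fun p => z⁻¹ ^ p), ← H.sum]
      refine Finset.sum_congr rfl fun p _ => ?_
      rw [← mul_zpow, mul_inv_cancel₀ hz, _root_.one_zpow, one_smul]
    have hT : IsHodgeTensor S P (1 * 2) (1 * 2) (pt5 (qt5 1 Q⁻¹) (qt5 1 Q)) := by
      intro z hz
      rw [tC_pt5, tC_qt5, tC_qt5]
      rw [eig_pt5 (c := z ^ (2 * m)) (d := z ^ (-(2 * m)))]
      · rw [← zpow_add₀ hz, add_neg_cancel, zpow_zero, one_smul]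
      · rw [act_qt5, key (cochar S P z) (cochar S P z⁻¹) (z ^ (2 * m)) (zpow_ne_zero _ hz) (hcc z hz)
          (mul_eq_one_comm.1 (hcc z hz)) (cochar_sim5 H hz), qt_smul5, pow_one]
      · rw [act_qt5, hz2 z hz, qt_smul5, pow_one]
    have h1 := hg (1 * 2) (1 * 2) _ hT
    rw [tC_pt5, tC_qt5, tC_qt5] at h1
    set gi : Matrix n n ℂ := ((g⁻¹ : GL n ℂ) : Matrix n n ℂ) with hgi
    have h2 : ∀ x y u v : n, ((g : Matrix n n ℂ) * toC Q⁻¹ * (g : Matrix n n ℂ)ᵀ) x y *
        (giᵀ * toC Q * gi) u v = toC Q⁻¹ x y * toC Q u v := by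
      intro x y u v
      have h3 := congrFun h1 (Sum.elim (fun k => if (finProdFinEquiv.symm k).2 = 0 then x else y)
        (fun k => if (finProdFinEquiv.symm k).2 = 0 then u else v))
      rw [act_pt5, act_qt5, act_qt5, Matrix.transpose_transpose] at h3
      simp only [Sum.elim_inl, Sum.elim_inr, pt5] at h3
      rw [qt_one5, qt_one5, qt_one5, qt_one5] at h3
      exact h3
    -- a nonzero entry of the inverse
    obtain ⟨x1, y1, hxy1⟩ : ∃ x y, toC Q⁻¹ x y ≠ 0 := by
      by_contra hcon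
      push Not at hcon
      have h0 : toC Q⁻¹ = 0 := by
        ext x y
        exact hcon x y
      rw [h0, mul_zero] at hQQ
      exact zero_ne_one hQQ
    set α : ℂ := ((g : Matrix n n ℂ) * toC Q⁻¹ * (g : Matrix n n ℂ)ᵀ) x1 y1 with hα
    have h3 := h2 x1 y1 x0 y0
    have hα0 : α ≠ 0 := by
      intro h0
      rw [← hα, h0, zero_mul] at h3
      exact (mul_ne_zero hxy1 hxyC) h3.symm
    set c : ℂ := α / toC Q⁻¹ x1 y1 with hcdef
    have hc0 : c ≠ 0 := div_ne_zero hα0 hxy1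
    have h4 : giᵀ * toC Q * gi = c⁻¹ • toC Q := by
      ext u v
      have h5 := h2 x1 y1 u v
      rw [← hα] at h5
      rw [Matrix.smul_apply, smul_eq_mul, hcdef, inv_div]
      field_simp
      linear_combination h5
    refine ⟨c, hc0, fun h => absurd h hm, ?_⟩
    have h5 := inv_sim5 (g := g⁻¹) (Q' := toC Q) (inv_ne_zero hc0) h4
    rw [inv_inv, inv_inv] at h5
    exact h5

theorem MT_le (H : IsHS m Q S P) {g : GL n ℂ} (hg : g ∈ MT S P) :
    ∃ z : ℂ, (m = 0 → z = 1) ∧ (g : Matrix n n ℂ)ᵀ * toC Q * (g : Matrix n n ℂ) = z ^ 2 • toC Q ∧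
      (g : Matrix n n ℂ).det = z ^ Fintype.card n := by
  classical
  rcases isEmpty_or_nonempty n with hn | hn
  · refine ⟨1, fun _ => rfl, ?_, ?_⟩
    · ext x
      exact hn.elim x
    · rw [one_pow, Matrix.det_isEmpty]
  obtain ⟨c, hc0, hcm, hc⟩ := exists_mult5 H hg
  obtain ⟨e⟩ : Nonempty (Fin (Fintype.card n) ≃ n) := ⟨(Fintype.equivFin n).symm⟩
  by_cases hm : m = 0
  · -- the determinant tensor
    have hT : IsHodgeTensor S P (Fintype.card n) 0 (pt5 (ep5 e) (fun _ => 1)) := by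
      intro z hz
      rw [tC_pt5, tC_ep5]
      rw [eig_pt5 (c := 1) (d := 1)]
      · rw [show (1 : ℂ) * 1 = 1 from one_mul 1, one_smul]
      · rw [act_ep5, det_cochar5 H hz, hm, zero_mul, zpow_zero]
      · rw [one_smul]
        funext i
        unfold actF tC
        simp
    have h1 := hg _ 0 _ hT
    rw [tC_pt5, tC_ep5] at h1
    have h2 := congrFun h1 (Sum.elim (fun k => e k) (fun k => k.elim0))
    rw [act_pt5, act_ep5] at h2
    simp only [Sum.elim_inl, pt5, Pi.smul_apply, smul_eq_mul] at h2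
    have h4 : ∀ i : Fin 0 → n, actF (fun _ => (((g⁻¹ : GL n ℂ) : Matrix n n ℂ))ᵀ) (tC fun _ => (1 : ℚ)) i = 1 := by
      intro i
      unfold actF tC
      simp
    have h5 : ∀ i : Fin 0 → n, tC (fun _ : Fin 0 → n => (1 : ℚ)) i = 1 := by
      intro i
      unfold tC
      simp
    rw [h4, h5, ep_self5, mul_one, mul_one] at h2
    refine ⟨1, fun _ => rfl, ?_, ?_⟩
    · rw [hc, hcm hm, one_pow]
    · rw [h2, one_pow, mul_one]
  obtain ⟨z, hz⟩ := IsAlgClosed.exists_pow_nat_eq c (show 0 < 2 by norm_num)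
  rcases Nat.even_or_odd (Fintype.card n) with hpar | hpar
  · -- even dimension
    obtain ⟨h, hh⟩ := hpar
    have hT : IsHodgeTensor S P (Fintype.card n) (h * 2) (pt5 (ep5 e) (qt5 h Q)) := by
      intro w hw
      rw [tC_pt5, tC_ep5, tC_qt5]
      rw [eig_pt5 (c := w ^ (m * (Fintype.card n : ℤ))) (d := (w ^ (-(2 * m))) ^ h)]
      · rw [← zpow_natCast (w ^ (-(2 * m))) h, ← _root_.zpow_mul, ← zpow_add₀ hw]
        have h1 : m * (Fintype.card n : ℤ) + -(2 * m) * (h : ℤ) = 0 := by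
          rw [hh]
          push_cast
          ring
        rw [h1, zpow_zero, one_smul]
      · rw [act_ep5, det_cochar5 H hw]
      · rw [act_qt5, Matrix.transpose_transpose, cochar_sim_inv5 H hw, qt_smul5]
    have h1 := hg _ _ _ hT
    rw [tC_pt5, tC_ep5, tC_qt5] at h1
    have h2 := inv_sim5 hc0 hc
    rw [eig_pt5 (c := (g : Matrix n n ℂ).det) (d := (c⁻¹) ^ h) (act_ep5 e _) (by
      rw [act_qt5, Matrix.transpose_transpose, h2, qt_smul5])] at h1
    obtain ⟨x0, y0, hxy⟩ : ∃ x y, toC Q x y ≠ 0 := by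
      by_contra hcon
      push Not at hcon
      have h0 : toC Q = 0 := by
        ext x y
        exact hcon x y
      apply detQ5 H
      rw [h0, Matrix.det_zero]
    have h3 := congrFun h1 (Sum.elim (fun k => e k)
      (fun k => if (finProdFinEquiv.symm k).2 = 0 then x0 else y0))
    simp only [Sum.elim_inl, Sum.elim_inr, pt5, Pi.smul_apply, smul_eq_mul] at h3
    rw [ep_self5, one_mul] at h3
    have h4 := qt_ne5 hxy h
    have h5 : (g : Matrix n n ℂ).det * (c⁻¹) ^ h = 1 := mul_right_cancel₀ h4 (by rw [h3, one_mul])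
    refine ⟨z, fun h => absurd h hm, ?_, ?_⟩
    · rw [hc, hz]
    · have h6 : z ^ Fintype.card n = c ^ h := by
        rw [hh, ← two_mul, pow_mul, hz]
      rw [h6]
      have h7 : c ^ h ≠ 0 := pow_ne_zero _ hc0
      rw [inv_pow] at h5
      field_simp at h5
      exact h5
  · -- odd dimension
    have h2 := congrArg Matrix.det hc
    rw [Matrix.det_mul, Matrix.det_mul, Matrix.det_transpose, Matrix.det_smul] at h2
    have h3 : (g : Matrix n n ℂ).det ^ 2 = (z ^ Fintype.card n) ^ 2 := by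
      have h4 : ((g : Matrix n n ℂ).det ^ 2 - c ^ Fintype.card n) * (toC Q).det = 0 := by
        linear_combination h2
      rw [sub_eq_zero.1 ((mul_eq_zero.1 h4).resolve_right (detQ5 H)), ← hz, ← pow_mul, ← pow_mul, mul_comm]
    rcases sq_eq_sq_iff_eq_or_eq_neg.1 h3 with h4 | h4
    · exact ⟨z, fun h => absurd h hm, by rw [hc, hz], h4⟩
    · refine ⟨-z, fun h => absurd h hm, by rw [hc, neg_sq, hz], ?_⟩
      rw [hpar.neg_pow]
      exact h4

end MH
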